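import Pool.Agent.L0h1.F5.Yf

/-!
# The sums over the common squares for the curves `y² = x³ - 8 m³`
-/

set_option autoImplicit false
set_option linter.unusedSectionVars false

open Filter
open scoped Topology PeriodPair

namespace Pool.Agent.L0h1.F5

open H667R3 Pool.Agent.W192.HK Pool.Agent.TH936.CM
open Pool.Agent.TH936.PU hiding pf
open Pool.Agent.Y696 Pool.Agent.Y715.T.Lat
open Pool.Agent.L0h86.F3 Pool.Agent.L0h4.T4 Pool.Agent.L0h86.F5
open Pool.Agent.Y698.SG (lg lg_one lg_neg_one lg_mul sgn_mul sgn_prod ix)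

variable {L : PeriodPair} {Ω : ℂ} {Γ : Type} [LinearOrderedCommGroupWithZero Γ]
  {v : Valuation ℂ Γ} {F : ℂ → ℂ} {ε : eis → ℂ}

/-- squares of sums -/
lemma v_sq_sum (t2 : v 2 < 1) {κ : Type*} (s : Finset κ) (f : κ → ℂ) (h : ∀ i ∈ s, v (f i) ≤ 1) :
    v ((∑ i ∈ s, f i) ^ 2 - ∑ i ∈ s, f i ^ 2) < 1 := by
  classical
  induction s using Finset.induction_on with
  | empty => simp
  | insert a s ha ih =>
    rw [Finset.sum_insert ha, Finset.sum_insert ha]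
    have h1 := ih fun i hi => h i (Finset.mem_insert_of_mem hi)
    have e : (f a + ∑ i ∈ s, f i) ^ 2 - (f a ^ 2 + ∑ i ∈ s, f i ^ 2) =
       ((∑ i ∈ s, f i) ^ 2 - ∑ i ∈ s, f i ^ 2) + 2 * (f a * ∑ i ∈ s, f i) := by ring
    rw [e]
    exact va_lt h1 (vm_lt t2 (vm_le (h a (Finset.mem_insert_self _ _))
      (v.map_sum_le fun i hi => h i (Finset.mem_insert_of_mem hi))))

/-- one subset -/
theorem Bw_one {ι : Type} [DecidableEq ι] (hL : IsLat L eis Ω) (hF : FN L Ω F ε) {π : ι → eis}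
    (S : Finset ι) (hS : FX S π) {A : Finset ι} (hA : A ⊆ S) :
    (∏ i ∈ S \ A, ((π i : ℂ) * ε (π i) - ∏ j ∈ A, sy (π j) (π i))) *
      Bw F Ω (∏ i ∈ A, π i) (fun m => ∏ i ∈ A, sy (π i) m) =
    Bw F Ω (∏ i ∈ S, π i) (fun m => (∏ i ∈ A, sy (π i) m) * ∏ i ∈ S \ A, tr (π i) m) := by
  have hAg := prod_ne (hS.mono hA)
  rw [← Bw_rems hL hF hAg ?_ _ (S \ A) (hS.mono Finset.sdiff_subset) ?_]
  · rw [Finset.prod_sdiff hA]
  · exact Pe.prod fun p _ => sy_per (π p)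
  · intro i hi
    rw [Finset.mem_sdiff] at hi
    exact Mu.prod (q := π i) (S := A) (f := fun j => sy (π j))
      (κ := fun j => sy (π j) (π i)) fun j hj m => (hS.pd j (hA hj)).mul _ _

/-- the sum over the subsets with signs -/
theorem Bw_signs {ι : Type} [DecidableEq ι] (hL : IsLat L eis Ω) (hF : FN L Ω F ε) {π : ι → eis}
    (S : Finset ι) (hS : FX S π) (τ : ι → ℂ) :
    ∑ A ∈ S.powerset, (∏ i ∈ A, τ i) *
      ((∏ i ∈ S \ A, ((π i : ℂ) * ε (π i) - ∏ j ∈ A, sy (π j) (π i))) *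
      Bw F Ω (∏ i ∈ A, π i) (fun m => ∏ i ∈ A, sy (π i) m)) =
    2 ^ S.card * Bw F Ω (∏ i ∈ S, π i) (fun m => ∏ i ∈ S, (τ i * sy (π i) m + tr (π i) m) / 2) := by
  have hSg := prod_ne hS
  have h1 : ∀ A ∈ S.powerset, (∏ i ∈ A, τ i) *
      ((∏ i ∈ S \ A, ((π i : ℂ) * ε (π i) - ∏ j ∈ A, sy (π j) (π i))) *
      Bw F Ω (∏ i ∈ A, π i) (fun m => ∏ i ∈ A, sy (π i) m)) =
      Bw F Ω (∏ i ∈ S, π i)
        (fun m => (∏ i ∈ A, τ i * sy (π i) m) * ∏ i ∈ S \ A, tr (π i) m) := by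
    intro A hA
    rw [Finset.mem_powerset] at hA
    rw [Bw_one hL hF S hS hA, ← Bw_smul hSg]
    congr 1
    funext m
    rw [Finset.prod_mul_distrib]
    ring
  rw [Finset.sum_congr rfl h1, ← Bw_sum hSg, ← Bw_smul hSg]
  congr 1
  funext m
  have h2 : ∏ i ∈ S, (τ i * sy (π i) m + tr (π i) m) =
      ∑ A ∈ S.powerset, (∏ i ∈ A, τ i * sy (π i) m) * ∏ i ∈ S \ A, tr (π i) m :=
    Finset.prod_add _ _ _
  rw [← h2, ← Finset.prod_const, ← Finset.prod_mul_distrib]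
  refine Finset.prod_congr rfl fun q _ => ?_
  ring

/-- multiplication by an element prime to `n` -/
lemma cop_bij {n c : eis} (h : IsCoprime c n) :
    Function.Bijective fun t : eis ⧸ (sp n : Ideal eis) =>
      Ideal.Quotient.mk (sp n) (c * t.out) := by
  obtain ⟨u, w, huw⟩ := h
  have h1 : Ideal.Quotient.mk (sp n) u * Ideal.Quotient.mk (sp n) c = 1 := by
    rw [← map_mul, ← map_one (Ideal.Quotient.mk (sp n)), Ideal.Quotient.mk_eq_mk_iff_sub_mem,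
      Ideal.mem_span_singleton']
    exact ⟨-w, by linear_combination -huw⟩
  obtain ⟨g, hg⟩ := IsUnit.of_mul_eq_one_right _ h1
  have e1 : (fun t : eis ⧸ (sp n : Ideal eis) => Ideal.Quotient.mk (sp n) (c * t.out)) =
      fun t => (g : eis ⧸ (sp n : Ideal eis)) * t := by
    funext t
    rw [map_mul, Ideal.Quotient.mk_out, hg]
  rw [e1]
  exact (Units.mulLeft g).bijective

lemma m2_notin {ϖ : eis} (h : PX ϖ) : (-2 : eis) ∉ sp ϖ := by
  intro h1
  exact two_notin h.odd h.pr ((Ideal.neg_mem_iff _).1 (by simpa using h1))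

lemma tau_sq {ϖ : eis} (h : PX ϖ) : sy ϖ (-2) * sy ϖ (-2) = 1 := by
  rcases sy_sgn (m2_notin h) with h1 | h1 <;> rw [h1] <;> norm_num

/-- the shifted weights -/
lemma hc_shift {ϖ : eis} (h : PX ϖ) (m : eis) :
    (sy ϖ (-2) * sy ϖ (-2 * m) + tr ϖ (-2 * m)) / 2 = hc ϖ m := by
  rw [h.mul, tr_mul h.pr (m2_notin h)]
  unfold hc
  linear_combination (sy ϖ m / 2) * tau_sq h

lemma c0_near (hC : Cur L Ω) (t2 : v 2 < 1) : v (Fy L Ω 0 - 1) < 1 := by
  have h := Fy_near hC t2 (n := 1) one_ne_zero isCoprime_one_right ⟨0, by ring⟩ 0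
  have e : Ω * ((0 : eis) : ℂ) / ((1 : eis) : ℂ) = 0 := by push_cast; ring
  rwa [e] at h

/-- the values of the twisted sums of `℘'` -/
theorem Fy_ind {ι : Type} [DecidableEq ι] (hC : Cur L Ω) (t2 : v 2 < 1) {S : Finset ι}
    {π : ι → eis} (hS : FX S π) {A : Finset ι} (hA : A ⊆ S) :
    R4 v (Bw (Fy L Ω) Ω (∏ i ∈ A, π i) (fun m => ∏ i ∈ A, sy (π i) m) /
      (2 ^ A.card * Fy L Ω 0)) (g4 π A) := by
  have hL := hC.lat
  have h0 := c0_near hC t2 (v := v)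
  have hv0 : v (Fy L Ω 0) = 1 := v_near h0
  have hne : Fy L Ω 0 ≠ 0 := by
    intro h
    rw [h, map_zero] at hv0
    exact zero_ne_one hv0
  refine indW (v := v) hL (Fy_FN hL) hne hS (fun i => bt (π i)) (fun i => F4.cj (bt (π i)))
    (fun i hi κ hκ => R4_cube t2 (hS.pd i hi) hκ) (fun S' hS' => ?_) A hA
  have hF' := hS.mono hS'
  refine Bw_hc (v := v) t2 hF' fun x => ?_
  refine R4.one.congr ?_
  have h1 := Fy_near hC t2 (prod_ne hF') (prod_odd hF') (prod_N1 hF') x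
  set z := Fy L Ω (Ω * x / ((∏ i ∈ S', π i : eis) : ℂ))
  have e : z / Fy L Ω 0 - 1 = ((z - 1) - (Fy L Ω 0 - 1)) / Fy L Ω 0 := by
    field_simp
    ring
  rw [e, map_div₀, hv0, div_one]
  exact v.map_sub_lt h1 h0

/-- the right side of the recursion -/
noncomputable def Wv {ι : Type} [DecidableEq ι] (π : ι → eis) (S : Finset ι) : F4 :=
  ∑ A ∈ S.powerset, F4.of (lg (∏ i ∈ A, sy (π i) (-2))) *
    ((∏ i ∈ S \ A, (bt (π i) + ∑ j ∈ A, F4.of (mm π i j))) * g4 π A)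

/-- the sum of `Y_x + Y_{-2x}` over the common squares -/
theorem Zsum {ι : Type} [DecidableEq ι] (hC : Cur L Ω) (t2 : v 2 < 1) {S : Finset ι}
    {π : ι → eis} (hS : FX S π) {n : eis} (hnd : ∏ i ∈ S, π i = n)
    [Fintype (eis ⧸ (sp n : Ideal eis))] :
    R4 v (∑ x : eis ⧸ (sp n : Ideal eis), (∏ i ∈ S, hc (π i) x.out) *
      (Yv L Ω (Ω * x.out / (n : ℂ)) + Yv L Ω (-2 * (Ω * x.out / (n : ℂ))))) (Wv π S) := by
  have hL := hC.lat
  have hn := prod_ne hS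
  obtain ⟨s, hs1, hs2⟩ := card_common hS
  have hSg := prod_ne hS
  have hodd := prod_odd hS
  rw [hnd] at hn hs2 hodd
  rw [finsum_eq_sum_of_fintype] at hs2
  set H : eis → ℂ := fun m => ∏ i ∈ S, hc (π i) m with hH
  have hs2' : ∑ x : eis ⧸ (sp n : Ideal eis), H x.out = (s : ℂ) := hs2
  set τ : ι → ℂ := fun i => sy (π i) (-2) with hτ
  set H' : eis → ℂ := fun m => ∏ i ∈ S, (τ i * sy (π i) m + tr (π i) m) / 2 with hH'
  have hn0 : (n : ℂ) ≠ 0 := coe_ne hn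
  -- the substitution
  have hsub : ∑ x : eis ⧸ (sp n : Ideal eis), H x.out * Fy L Ω (-2 * (Ω * x.out / (n : ℂ))) =
      Bw (Fy L Ω) Ω n H' := by
    have hpe : Pe n H' := by
      intro x y hxy
      rw [hH']
      beta_reduce
      refine Finset.prod_congr rfl fun i hi => ?_
      have hd : (π i) ∣ n := by
        rw [← hnd]
        exact Finset.dvd_prod_of_mem π hi
      rw [(sy_per (π i)).mono hd x y hxy, (tr_per (π i)).mono hd x y hxy]
    have hb := cop_bij (n := n) (c := -2) (by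
      have := hodd.neg_left
      exact this)
    rw [Bw_eq, sum_rep (fun y : eis ⧸ (sp n : Ideal eis) => -2 * y.out) hb
      (fun r : eis => H' r * Fy L Ω (Ω * r / (n : ℂ)))
      (fun x y h => Bw_term hL (Fy_FN hL) hn hpe h)]
    refine Finset.sum_congr rfl fun y _ => ?_
    have e1 : H' (-2 * y.out) = H y.out :=
      Finset.prod_congr rfl fun i hi => hc_shift (hS.pd i hi) _
    rw [e1]
    congr 2
    push_cast
    rw [two_coe]
    ring
  -- the two sums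
  set a : Finset ι → ℂ := fun A => Bw (Fy L Ω) Ω (∏ i ∈ A, π i) (fun m => ∏ i ∈ A, sy (π i) m)
    with ha
  set c0 : ℂ := Fy L Ω 0 with hc0
  have h0 := c0_near hC t2 (v := v)
  have hv0 : v c0 = 1 := v_near h0
  have hne : c0 ≠ 0 := by
    intro h
    rw [h, map_zero] at hv0
    exact zero_ne_one hv0
  set t : Finset ι → ℂ := fun A =>
    (∏ i ∈ S \ A, (((π i : ℂ) * (π i : ℂ) ^ 2 - ∏ j ∈ A, sy (π j) (π i)) / 2)) *
      (a A / (2 ^ A.card * c0)) with ht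
  have ht1 : ∀ A ∈ S.powerset, (∏ i ∈ S \ A, ((π i : ℂ) * (π i : ℂ) ^ 2 -
      ∏ j ∈ A, sy (π j) (π i))) * a A = (2 ^ S.card * c0) * t A := by
    intro A hA
    rw [Finset.mem_powerset] at hA
    have hcs : S.card = (S \ A).card + A.card := (Finset.card_sdiff_add_card_eq_card hA).symm
    rw [ht]
    beta_reduce
    rw [Finset.prod_div_distrib, Finset.prod_const, hcs, pow_add]
    field_simp
  have h20 : (2 : ℂ) ^ S.card ≠ 0 := pow_ne_zero _ two_ne_zero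
  have k1 : Bw (Fy L Ω) Ω n H = c0 * ∑ A ∈ S.powerset, t A := by
    have h2 := Bw_subsets hL (Fy_FN hL) S hS
    rw [Finset.sum_congr rfl ht1, ← Finset.mul_sum, hnd] at h2
    have h3 : (2 : ℂ) ^ S.card * Bw (Fy L Ω) Ω n H =
        2 ^ S.card * (c0 * ∑ A ∈ S.powerset, t A) := by
      rw [← h2]
      ring
    exact mul_left_cancel₀ h20 h3
  have k2 : Bw (Fy L Ω) Ω n H' = c0 * ∑ A ∈ S.powerset, (∏ i ∈ A, τ i) * t A := by
    have h2 := Bw_signs hL (Fy_FN hL) S hS τ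
    have h3 : ∀ A ∈ S.powerset, (∏ i ∈ A, τ i) * ((∏ i ∈ S \ A, ((π i : ℂ) * (π i : ℂ) ^ 2 -
        ∏ j ∈ A, sy (π j) (π i))) * a A) = (2 ^ S.card * c0) * ((∏ i ∈ A, τ i) * t A) := by
      intro A hA
      rw [ht1 A hA]
      ring
    rw [Finset.sum_congr rfl h3, ← Finset.mul_sum, hnd] at h2
    have h4 : (2 : ℂ) ^ S.card * Bw (Fy L Ω) Ω n H' =
        2 ^ S.card * (c0 * ∑ A ∈ S.powerset, (∏ i ∈ A, τ i) * t A) := by
      rw [← h2]
      ring
    exact mul_left_cancel₀ h20 h4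
  -- the value
  have hZ : ∑ x : eis ⧸ (sp n : Ideal eis), H x.out *
      (Yv L Ω (Ω * x.out / (n : ℂ)) + Yv L Ω (-2 * (Ω * x.out / (n : ℂ)))) =
      c0 * ∑ A ∈ S.powerset, (1 + ∏ i ∈ A, τ i) / 2 * t A + -(s : ℂ) := by
    have e1 : ∀ x : eis ⧸ (sp n : Ideal eis), H x.out *
        (Yv L Ω (Ω * x.out / (n : ℂ)) + Yv L Ω (-2 * (Ω * x.out / (n : ℂ)))) =
        (1 / 2) * (H x.out * Fy L Ω (Ω * x.out / (n : ℂ))) +
        (1 / 2) * (H x.out * Fy L Ω (-2 * (Ω * x.out / (n : ℂ)))) - H x.out := by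
      intro x
      rw [Yv_eq, Yv_eq]
      ring
    rw [Finset.sum_congr rfl fun x _ => e1 x, Finset.sum_sub_distrib, Finset.sum_add_distrib,
      ← Finset.mul_sum, ← Finset.mul_sum, hsub, hs2', ← Bw_eq (F := Fy L Ω) n H, k1, k2]
    have e2 : ∑ A ∈ S.powerset, (1 + ∏ i ∈ A, τ i) / 2 * t A =
        (1 / 2) * ∑ A ∈ S.powerset, t A + (1 / 2) * ∑ A ∈ S.powerset, (∏ i ∈ A, τ i) * t A := by
      rw [Finset.mul_sum, Finset.mul_sum, ← Finset.sum_add_distrib]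
      refine Finset.sum_congr rfl fun A _ => ?_
      ring
    rw [e2]
    ring
  have hgoal : R4 v (c0 * ∑ A ∈ S.powerset, (1 + ∏ i ∈ A, τ i) / 2 * t A + -(s : ℂ))
      (1 * (∑ A ∈ S.powerset, (1 + F4.of (lg (∏ i ∈ A, τ i))) *
        ((∏ i ∈ S \ A, (bt (π i) + ∑ j ∈ A, F4.of (mm π i j))) * g4 π A)) +
        F4.of (s : ZMod 2)) := by
    refine R4.add (R4.mul (R4.one.congr h0) (R4.sum fun A hA => ?_)) (R4_nat t2 s).neg
    rw [Finset.mem_powerset] at hA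
    refine R4.mul ?_ (R4.mul (R4.prod fun i hi => ?_) (Fy_ind hC t2 hS hA))
    · have h5 := sgn_prod (s := A) (f := τ) fun j hj => sy_sgn (m2_notin (hS.pd j (hA hj)))
      rcases h5.1 with h6 | h6
      · rw [h6, lg_one, map_zero, add_zero]
        have : (1 + 1 : ℂ) / 2 = 1 := by norm_num
        rw [this]
        exact R4.one
      · rw [h6, lg_neg_one, map_one]
        have e : (1 + -1 : ℂ) / 2 = 0 := by norm_num
        have e2 : (1 + 1 : F4) = 0 := by decide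
        rw [e, e2, R4.zero_iff t2, map_zero]
        exact zero_lt_one
    · rw [Finset.mem_sdiff] at hi
      have h7 := sgn_prod (s := A) (f := fun j => sy (π j) (π i)) fun j hj => sy_sgn
        (hS.ne i hi.1 j (hA hj) fun h => hi.2 (h ▸ hj))
      have h8 : ∑ j ∈ A, F4.of (mm π i j) = F4.of (lg (∏ j ∈ A, sy (π j) (π i))) := by
        rw [h7.2, map_sum]
        rfl
      rw [h8]
      exact R4_cube t2 (hS.pd i hi.1) h7.1
  -- the identity in the field with four elements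
  have hid : (1 * (∑ A ∈ S.powerset, (1 + F4.of (lg (∏ i ∈ A, τ i))) *
      ((∏ i ∈ S \ A, (bt (π i) + ∑ j ∈ A, F4.of (mm π i j))) * g4 π A)) +
        F4.of (s : ZMod 2)) = Wv π S := by
    have h6 := rec_gen (fun i => bt (π i)) (fun i => F4.cj (bt (π i)))
      (fun i j => F4.of (mm π i j)) S
    have h7 : F4.of (s : ZMod 2) = ∑ A ∈ S.powerset,
        ((∏ i ∈ S \ A, (bt (π i) + ∑ j ∈ A, F4.of (mm π i j))) * g4 π A) := by
      have h8 : F4.of (s : ZMod 2) = ∏ i ∈ S, (bt (π i) + F4.cj (bt (π i))) := by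
        rw [hs1, map_prod]
        exact Finset.prod_congr rfl fun i _ => F4.of_tr _
      rw [h8, ← h6]
      refine Finset.sum_congr rfl fun A _ => ?_
      unfold g4
      ring
    rw [one_mul, h7, ← Finset.sum_add_distrib]
    unfold Wv
    refine Finset.sum_congr rfl fun A _ => ?_
    generalize ((∏ i ∈ S \ A, (bt (π i) + ∑ j ∈ A, F4.of (mm π i j))) * g4 π A) = y
    rw [hτ]
    generalize F4.of (lg (∏ i ∈ A, sy (π i) (-2))) = z
    have h9 := add_self_two y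
    linear_combination h9
  rw [hid, ← hZ] at hgoal
  exact hgoal

/-- the threefold sum -/
noncomputable def F3v (s Ω z : ℂ) : ℂ := F2v s Ω z + F2v s Ω (om * z) + F2v s Ω (om ^ 2 * z)

/-- **the sums over the common squares** -/
theorem vs8 (hEV : S_EV8) (hC : Cur L Ω) (t2 : v 2 < 1) {s κ : ℂ} {t : ZMod 2}
    (ht : s = -1 ∧ κ = 1 ∧ t = 1 ∨ s = 1 ∧ κ = 0 ∧ t = 0) :
    ∃ θ : ℂ, v θ ^ 6 = v 2 ^ 13 ∧ ∀ {ι : Type} [DecidableEq ι] {S : Finset ι} {π : ι → eis},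
      FX S π → R4 v (Bw (F3v s Ω) Ω (∏ i ∈ S, π i) (fun m => ∏ i ∈ S, hc (π i) m) / θ)
        (F4.of t * ∏ i ∈ S, (bt (π i) + F4.cj (bt (π i))) + Wv π S ^ 2) := by
  obtain ⟨θ, hθ, h⟩ := hEV v t2 L Ω hC s κ (by
    rcases ht with ⟨h1, h2, -⟩ | ⟨h1, h2, -⟩
    · exact Or.inl ⟨h1, h2⟩
    · exact Or.inr ⟨h1, h2⟩)
  refine ⟨θ, hθ, ?_⟩
  intro ι _ S π hS
  obtain ⟨n, hnd⟩ : ∃ n : eis, ∏ i ∈ S, π i = n := ⟨_, rfl⟩
  have hn := prod_ne hS
  have hodd := prod_odd hS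
  have hn1 := prod_N1 hS
  obtain ⟨c, hc1, hc2⟩ := card_common hS
  rw [hnd] at hn hodd hn1 hc2 ⊢
  have f1 := fin_quot hn
  let _ : Fintype (eis ⧸ (sp n : Ideal eis)) := Fintype.ofFinite _
  have hZ := Zsum hC t2 (v := v) hS hnd
  have h' := h n hn hodd hn1
  have hY := fun x => Yv_le hC t2 (v := v) hn hodd hn1 x
  rw [finsum_eq_sum_of_fintype] at hc2
  set H : eis → ℂ := fun m => ∏ i ∈ S, hc (π i) m with hH
  have hc2' : ∑ x : eis ⧸ (sp n : Ideal eis), H x.out = (c : ℂ) := hc2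
  have hHv : ∀ x : eis, H x = 0 ∨ H x = 1 := by
    intro x
    rw [hH]
    beta_reduce
    by_cases h0 : ∃ i ∈ S, hc (π i) x = 0
    · obtain ⟨i, hi, h1⟩ := h0
      exact Or.inl (Finset.prod_eq_zero hi h1)
    · push Not at h0
      refine Or.inr (Finset.prod_eq_one fun i hi => ?_)
      rcases (hc_val (π i) x).1 with h1 | h1
      · exact absurd h1 (h0 i hi)
      · exact h1
  have hHle : ∀ x : eis, v (H x) ≤ 1 := by
    intro x
    rcases hHv x with h0 | h0 <;> rw [h0]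
    · rw [map_zero]
      exact zero_le
    · rw [map_one]
  set Y : eis ⧸ (sp n : Ideal eis) → ℂ := fun x => Yv L Ω (Ω * x.out / (n : ℂ)) +
    Yv L Ω (-2 * (Ω * x.out / (n : ℂ))) with hYd
  have hYle : ∀ x, v (Y x) ≤ 1 := by
    intro x
    refine va_le (hY _) ?_
    have e : -2 * (Ω * x.out / (n : ℂ)) = Ω * ((-2 * x.out : eis) : ℂ) / (n : ℂ) := by
      push_cast
      rw [two_coe]
      ring
    rw [e]
    exact hY _
  have hZ' : R4 v (∑ x : eis ⧸ (sp n : Ideal eis), H x.out * Y x) (Wv π S) := hZ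
  have e1 : Bw (F3v s Ω) Ω n H / θ = κ * (c : ℂ) +
      ∑ x : eis ⧸ (sp n : Ideal eis), (H x.out * Y x) ^ 2 +
      ∑ x : eis ⧸ (sp n : Ideal eis), H x.out *
        (F3v s Ω (Ω * x.out / (n : ℂ)) / θ - (κ + Y x ^ 2)) := by
    rw [Bw_eq, Finset.sum_div, ← hc2', Finset.mul_sum, ← Finset.sum_add_distrib,
      ← Finset.sum_add_distrib]
    refine Finset.sum_congr rfl fun x _ => ?_
    have h2 : H x.out ^ 2 = H x.out := by
      rcases hHv x.out with h0 | h0 <;> rw [h0] <;> norm_num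
    linear_combination (-(Y x) ^ 2) * h2
  have hκ : R4 v κ (F4.of t) := by
    rcases ht with ⟨-, h2, h3⟩ | ⟨-, h2, h3⟩
    · rw [h2, h3, map_one]
      exact R4.one
    · rw [h2, h3, map_zero, R4.zero_iff t2, map_zero]
      exact zero_lt_one
  have hcc : F4.of (c : ZMod 2) = ∏ i ∈ S, (bt (π i) + F4.cj (bt (π i))) := by
    rw [hc1, map_prod]
    exact Finset.prod_congr rfl fun i _ => F4.of_tr _
  have hmain : R4 v (κ * (c : ℂ) + (∑ x : eis ⧸ (sp n : Ideal eis), H x.out * Y x) *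
      (∑ x : eis ⧸ (sp n : Ideal eis), H x.out * Y x))
      (F4.of t * ∏ i ∈ S, (bt (π i) + F4.cj (bt (π i))) + Wv π S * Wv π S) := by
    rw [← hcc]
    exact (hκ.mul (R4_nat t2 c)).add (hZ'.mul hZ')
  rw [pow_two]
  refine hmain.congr ?_
  rw [e1]
  have h3 := v_sq_sum t2 (Finset.univ) (fun x : eis ⧸ (sp n : Ideal eis) => H x.out * Y x)
    fun x _ => vm_le (hHle _) (hYle x)
  have h4 : v (∑ x : eis ⧸ (sp n : Ideal eis), H x.out *
        (F3v s Ω (Ω * x.out / (n : ℂ)) / θ - (κ + Y x ^ 2))) < 1 := by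
    refine v_sum_lt _ _ fun x _ => ?_
    rw [mul_comm]
    exact vm_lt (h' x.out) (hHle _)
  have e2 : κ * (c : ℂ) + ∑ x : eis ⧸ (sp n : Ideal eis), (H x.out * Y x) ^ 2 +
      ∑ x : eis ⧸ (sp n : Ideal eis), H x.out *
        (F3v s Ω (Ω * x.out / (n : ℂ)) / θ - (κ + Y x ^ 2)) -
      (κ * (c : ℂ) + (∑ x : eis ⧸ (sp n : Ideal eis), H x.out * Y x) *
      (∑ x : eis ⧸ (sp n : Ideal eis), H x.out * Y x)) =
      -((∑ x : eis ⧸ (sp n : Ideal eis), H x.out * Y x) ^ 2 -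
        ∑ x : eis ⧸ (sp n : Ideal eis), (H x.out * Y x) ^ 2) +
      ∑ x : eis ⧸ (sp n : Ideal eis), H x.out *
        (F3v s Ω (Ω * x.out / (n : ℂ)) / θ - (κ + Y x ^ 2)) := by
    ring
  rw [e2]
  refine va_lt ?_ h4
  rw [Valuation.map_neg]
  exact h3

end Pool.Agent.L0h1.F5
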