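import Pool.Agent.L0h86.F5.Def
import Pool.Agent.L0h1.F3R.Ev4

/-!
# The function `℘'(z - Ω / √-3)`: distribution relation, values at the points of odd order
-/

set_option autoImplicit false
set_option linter.unusedSectionVars false

open Filter
open scoped Topology PeriodPair

namespace Pool.Agent.L0h1.F5

open H667R3 Pool.Agent.W192.HK Pool.Agent.TH936.CM
open Pool.Agent.TH936.PU hiding pf
open Pool.Agent.Y696 Pool.Agent.Y715.T.Lat
open Pool.Agent.L0h86.F3 Pool.Agent.L0h4.T4 Pool.Agent.L0h86.F5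
open Pool.Agent.Y698.SG (lg lg_one lg_neg_one lg_mul sgn_mul sgn_prod ix)

variable {L : PeriodPair} {Ω : ℂ} {Γ : Type*} [LinearOrderedCommGroupWithZero Γ]
  {v : Valuation ℂ Γ}

/-- `℘'` as a sum over the ring -/
noncomputable def latE (hL : IsLat L eis Ω) : eis ≃ L.lattice :=
  Equiv.ofBijective (fun r => ⟨-(Ω * r), neg_mem (hL.mem_mul r)⟩) ⟨by
    intro r s h
    have h1 : -(Ω * (r : ℂ)) = -(Ω * (s : ℂ)) := congrArg Subtype.val h
    have h2 : (r : ℂ) = s := mul_left_cancel₀ hL.ne (neg_injective h1)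
    exact Subtype.ext h2, by
    rintro ⟨l, hl⟩
    obtain ⟨r, hr⟩ := (hL.mem l).1 hl
    refine ⟨-r, Subtype.ext ?_⟩
    show -(Ω * ((-r : eis) : ℂ)) = l
    rw [hr]
    push_cast
    ring⟩

lemma dwp_hasSum (hL : IsLat L eis Ω) (z : ℂ) :
    HasSum (fun r : eis => -2 / (z + Ω * r) ^ 3) (℘'[L] z) := by
  have h := (Equiv.hasSum_iff (latE hL)).2 (L.hasSum_derivWeierstrassP z)
  convert h using 1
  funext r
  show -2 / (z + Ω * r) ^ 3 = -2 / (z - -(Ω * (r : ℂ))) ^ 3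
  rw [sub_neg_eq_add]

/-- the distribution relation of `℘'` -/
theorem dwp_dist (hL : IsLat L eis Ω) {a : eis} (ha : a ≠ 0) [Fintype (eis ⧸ sp a)] (z : ℂ) :
    ∑ q : eis ⧸ sp a, ℘'[L] (z + Ω * q.out / a) = (a : ℂ) ^ 3 * ℘'[L] (a * z) := by
  have ha0 : (a : ℂ) ≠ 0 := coe_ne ha
  have h1 := (dwp_hasSum hL (a * z)).mul_left ((a : ℂ) ^ 3)
  have h2 := tsum_prtA a ha _ h1.summable
  rw [h1.tsum_eq] at h2
  rw [h2]
  refine Finset.sum_congr rfl fun q _ => ?_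
  rw [← (dwp_hasSum hL (z + Ω * q.out / a)).tsum_eq]
  refine tsum_congr fun β => ?_
  have e : (a : ℂ) * z + Ω * ((q.out + a * β : eis) : ℂ) = a * (z + Ω * q.out / a + Ω * β) := by
    push_cast
    field_simp
    ring
  rw [e, mul_pow]
  by_cases h0 : z + Ω * q.out / a + Ω * β = 0
  · rw [h0]
    norm_num
  · field_simp

/-- the function -/
noncomputable def Fy (L : PeriodPair) (Ω z : ℂ) : ℂ := ℘'[L] (z - Ω / (la : ℂ))

lemma Yv_eq (z : ℂ) : Yv L Ω z = (Fy L Ω z - 1) / 2 := rfl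

lemma Fy_per {z w : ℂ} (h : w - z ∈ L.lattice) : Fy L Ω w = Fy L Ω z := by
  unfold Fy
  apply dwp_per
  convert h using 1
  ring

lemma la_c : (la : ℂ) ≠ 0 := coe_ne la_ne

theorem Fy_FN (hL : IsLat L eis Ω) : FN L Ω (Fy L Ω) (fun a => (a : ℂ) ^ 2) := by
  refine ⟨fun h => Fy_per h, ?_⟩
  intro a ha h1 _ z hz
  have h2 := dwp_dist hL ha (z - Ω / (la : ℂ))
  have e1 : ∀ q : eis ⧸ sp a, Fy L Ω (z + Ω * q.out / a) =
      ℘'[L] (z - Ω / (la : ℂ) + Ω * q.out / a) := by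
    intro q
    unfold Fy
    congr 1
    ring
  rw [Finset.sum_congr rfl fun q _ => e1 q, h2]
  have e2 : ℘'[L] (a * (z - Ω / (la : ℂ))) = Fy L Ω (a * z) := by
    unfold Fy
    apply dwp_per
    obtain ⟨u, rfl⟩ := h1
    have h3 := hL.mem_mul (-(2 * u))
    have hla : (la : ℂ) ≠ 0 := la_c
    convert h3 using 1
    push_cast
    rw [two_coe]
    field_simp
    ring
  rw [e2]
  ring

/-- representation as a quotient of odd order -/
lemma rep_odd {n : eis} (hn : n ≠ 0) (hodd : IsCoprime (2 : eis) n) (h1 : N1 n) (x : eis) :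
    Ω * x / n - Ω / (la : ℂ) = Ω * ((la * x - n : eis) : ℂ) / ((la * n : eis) : ℂ) ∧
      la * n ≠ 0 ∧ IsCoprime (2 : eis) (la * n) ∧ (la * x - n : eis) ∉ sp (la * n) := by
  have hn0 : (n : ℂ) ≠ 0 := coe_ne hn
  refine ⟨?_, mul_ne_zero la_ne hn, la_odd.mul_right hodd, ?_⟩
  · have hla : (la : ℂ) ≠ 0 := la_c
    push_cast
    field_simp
  · intro h
    rw [Ideal.mem_span_singleton] at h
    have h2 : (la : eis) ∣ n := by
      have h3 : (la : eis) ∣ la * x - n := (Dvd.intro _ rfl).trans h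
      have h4 : (la : eis) ∣ la * x - (la * x - n) := dvd_sub (Dvd.intro _ rfl) h3
      rwa [sub_sub_cancel] at h4
    exact la_nu ((h1.cop_la).isUnit_of_dvd' dvd_rfl h2)

lemma rep_two {n : eis} (hn : n ≠ 0) (hodd : IsCoprime (2 : eis) n) (h1 : N1 n) (x : eis) :
    2 * (Ω * x / n - Ω / (la : ℂ)) ∉ L.lattice ∨ ¬ IsLat L eis Ω := by
  by_cases hL : IsLat L eis Ω
  · left
    obtain ⟨e, k1, k2, k3⟩ := rep_odd (Ω := Ω) hn hodd h1 x
    rw [e]
    have h2 : 2 * (Ω * ((la * x - n : eis) : ℂ) / ((la * n : eis) : ℂ)) =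
        Ω * ((2 ^ 1 * (la * x - n) : eis) : ℂ) / ((la * n : eis) : ℂ) := by
      push_cast
      rw [two_coe]
      ring
    rw [h2, div_mem_iff hL k1]
    exact pow_notMem k2 k3 1
  · exact Or.inr hL

/-- the values at the points of odd order -/
theorem Fy_near (hC : Cur L Ω) (t2 : v 2 < 1) {n : eis} (hn : n ≠ 0)
    (hodd : IsCoprime (2 : eis) n) (h1 : N1 n) (x : eis) :
    v (Fy L Ω (Ω * x / n) - 1) < 1 := by
  obtain ⟨e, k1, k2, k3⟩ := rep_odd (Ω := Ω) hn hodd h1 x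
  unfold Fy
  rw [e]
  exact dwp_odd hC t2 k1 k2 _ k3

/-- integrality of the halves -/
theorem Yv_le (hC : Cur L Ω) (t2 : v 2 < 1) {n : eis} (hn : n ≠ 0)
    (hodd : IsCoprime (2 : eis) n) (h1 : N1 n) (x : eis) :
    v (Yv L Ω (Ω * x / n)) ≤ 1 := by
  obtain ⟨e, k1, k2, k3⟩ := rep_odd (Ω := Ω) hn hodd h1 x
  unfold Yv
  rw [e]
  have h4 := wp_odd hC t2 k1 k2 _ k3
  have hz : Ω * ((la * x - n : eis) : ℂ) / ((la * n : eis) : ℂ) ∉ L.lattice := by
    rwa [div_mem_iff hC.lat k1]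
  have hode := hC.ode hz
  set X := ℘[L] (Ω * ((la * x - n : eis) : ℂ) / ((la * n : eis) : ℂ))
  set Y := ℘'[L] (Ω * ((la * x - n : eis) : ℂ) / ((la * n : eis) : ℂ))
  have hW : ((Y - 1) / 2) * ((Y - 1) / 2 + 1) = X ^ 3 := by linear_combination hode / 4
  by_contra hc
  push Not at hc
  have h2 : v ((Y - 1) / 2 + 1) = v ((Y - 1) / 2) := by
    have h9 : v 1 < v ((Y - 1) / 2) := by
      rw [map_one]
      exact hc
    exact v.map_add_eq_of_lt_left h9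
  have h3 := congrArg v hW
  rw [map_mul, h2, map_pow] at h3
  have h5 : 1 < v ((Y - 1) / 2) * v ((Y - 1) / 2) := one_lt_mul'' hc hc
  rw [h3] at h5
  exact absurd (pow_le_one' h4 3) (not_le.2 h5)

/-- the Euler factors -/
theorem R4_cube {ϖ : eis} (t2 : v 2 < 1) (h : PX ϖ) {κ : ℂ} (hκ : κ = 1 ∨ κ = -1) :
    R4 v (((ϖ : ℂ) * (ϖ : ℂ) ^ 2 - κ) / 2) (bt ϖ + F4.of (lg κ)) := by
  refine (R4_euler (v := v) h hκ).congr ?_
  obtain ⟨a, b, hab⟩ := h.half
  have hc : (ϖ : ℂ) = 1 + 2 * ((ez a b : eis) : ℂ) := by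
    rw [hab]
    push_cast
    rw [two_coe]
  have e : ((ϖ : ℂ) * (ϖ : ℂ) ^ 2 - κ) / 2 - ((ϖ : ℂ) - κ) / 2 =
      2 * ((ϖ * (ez a b) * (1 + ez a b) : eis) : ℂ) := by
    push_cast
    rw [hc]
    ring
  rw [e]
  exact vm_lt t2 (v_eis _)

end Pool.Agent.L0h1.F5
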